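import Pool.Agent.helper82.T6.SpecL

set_option autoImplicit false

namespace Pool.Agent.T6

open Finset Pool.Agent.helper3.FT

theorem P6_sum (hP1 : P1_stmt) (j : ℕ) :
    ∑ p ∈ Nat.primesBelow (2 ^ (j + 1)), (1 : ℝ) / p ≤ 4 * (harmonic j : ℝ) := by
  induction j with
  | zero =>
    have h1 : Nat.primesBelow (2 ^ (0 + 1)) = ∅ := by decide
    rw [h1, Finset.sum_empty, harmonic_zero]
    norm_num
  | succ j ih =>
    have h1 : Nat.primesBelow (2 ^ (j + 1 + 1)) ⊆ Nat.primesBelow (2 ^ (j + 1)) ∪ pb 0 (j + 1) := by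
      intro p hp
      rw [Nat.mem_primesBelow] at hp
      rw [Finset.mem_union, Nat.mem_primesBelow]
      by_cases h : p < 2 ^ (j + 1)
      · exact Or.inl ⟨h, hp.2⟩
      · refine Or.inr ?_
        unfold pb
        rw [Finset.mem_filter, Finset.mem_Ico]
        exact ⟨⟨not_lt.1 h, hp.1⟩, hp.2, hp.2.pos⟩
    have h2 : ∑ p ∈ Nat.primesBelow (2 ^ (j + 1 + 1)), (1 : ℝ) / p ≤
        ∑ p ∈ Nat.primesBelow (2 ^ (j + 1)) ∪ pb 0 (j + 1), (1 : ℝ) / p :=
      Finset.sum_le_sum_of_subset_of_nonneg h1 (fun _ _ _ => by positivity)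
    have h3 : ∑ p ∈ Nat.primesBelow (2 ^ (j + 1)) ∪ pb 0 (j + 1), (1 : ℝ) / p ≤
        ∑ p ∈ Nat.primesBelow (2 ^ (j + 1)), (1 : ℝ) / p + ∑ p ∈ pb 0 (j + 1), (1 : ℝ) / p := by
      rw [← Finset.sum_union_inter]
      have : (0 : ℝ) ≤ ∑ p ∈ Nat.primesBelow (2 ^ (j + 1)) ∩ pb 0 (j + 1), (1 : ℝ) / p :=
        Finset.sum_nonneg (fun _ _ => by positivity)
      linarith
    have h4 := hP1 0 (j + 1) (by omega)
    rw [harmonic_succ]
    push_cast at h4 ⊢
    have h5 : (4 : ℝ) / (j + 1) = 4 * ((j : ℝ) + 1)⁻¹ := by rw [div_eq_mul_inv]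
    linarith

theorem P6_harm (j : ℕ) (hj : 1 ≤ j) : (harmonic (j - 1) : ℝ) ≤ 1 + Real.log j := by
  have h1 := harmonic_le_one_add_log (j - 1)
  have h2 : Real.log ((j - 1 : ℕ) : ℝ) ≤ Real.log j := by
    by_cases h : j = 1
    · subst h
      simp
    · apply Real.log_le_log
      · exact_mod_cast (by omega : 0 < j - 1)
      · exact_mod_cast (by omega : j - 1 ≤ j)
  linarith

/-- the completely multiplicative function -/
noncomputable def P6_f (a : ℝ) : ℕ →* ℝ where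
  toFun n := (n : ℝ) ^ a
  map_one' := by simp
  map_mul' m n := by
    push_cast
    exact Real.mul_rpow (Nat.cast_nonneg _) (Nat.cast_nonneg _)

theorem P6_prod (hP1 : P1_stmt) (j : ℕ) (hj : 1 ≤ j) :
    (∀ p ∈ Nat.primesBelow (2 ^ j), (p : ℝ) ^ (1 / ((j : ℝ) + 1) - 1) ≤ 2 / p ∧
      (p : ℝ) ^ (1 / ((j : ℝ) + 1) - 1) ≤ 3 / 4) ∧
    ∏ p ∈ Nat.primesBelow (2 ^ j), (1 - (p : ℝ) ^ (1 / ((j : ℝ) + 1) - 1))⁻¹ ≤
      Real.exp 32 * (j : ℝ) ^ 32 := by
  have hj0 : (0 : ℝ) < (j : ℝ) + 1 := by positivity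
  have key : ∀ p ∈ Nat.primesBelow (2 ^ j), (p : ℝ) ^ (1 / ((j : ℝ) + 1) - 1) ≤ 2 / p ∧
      (p : ℝ) ^ (1 / ((j : ℝ) + 1) - 1) ≤ 3 / 4 := by
    intro p hp
    rw [Nat.mem_primesBelow] at hp
    have hp0 : (0 : ℝ) < p := by exact_mod_cast hp.2.pos
    have hp2 : (2 : ℝ) ≤ p := by exact_mod_cast hp.2.two_le
    constructor
    · rw [Real.rpow_sub hp0, Real.rpow_one]
      refine div_le_div_of_nonneg_right ?_ hp0.le
      have h1 : (p : ℝ) ≤ 2 ^ ((j : ℝ) + 1) := by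
        have h2 : (p : ℝ) ≤ 2 ^ j := by exact_mod_cast hp.1.le
        refine h2.trans ?_
        rw [← Real.rpow_natCast]
        exact Real.rpow_le_rpow_of_exponent_le (by norm_num) (by linarith)
      calc (p : ℝ) ^ (1 / ((j : ℝ) + 1)) ≤ ((2 : ℝ) ^ ((j : ℝ) + 1)) ^ (1 / ((j : ℝ) + 1)) :=
            Real.rpow_le_rpow hp0.le h1 (by positivity)
        _ = 2 := by
            rw [← Real.rpow_mul (by norm_num), mul_one_div_cancel hj0.ne', Real.rpow_one]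
    · have h1 : 1 / ((j : ℝ) + 1) ≤ 1 / 2 := by
        apply one_div_le_one_div_of_le (by norm_num)
        have : (1 : ℝ) ≤ j := by exact_mod_cast hj
        linarith
      calc (p : ℝ) ^ (1 / ((j : ℝ) + 1) - 1) ≤ (2 : ℝ) ^ (1 / ((j : ℝ) + 1) - 1) :=
            Real.rpow_le_rpow_of_nonpos (by norm_num) hp2 (by linarith)
        _ ≤ (2 : ℝ) ^ (-(1 / 2) : ℝ) :=
            Real.rpow_le_rpow_of_exponent_le (by norm_num) (by linarith)
        _ ≤ 3 / 4 := by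
            rw [Real.rpow_neg (by norm_num), ← Real.sqrt_eq_rpow]
            have h2 : (4 : ℝ) / 3 ≤ √2 := by
              apply Real.le_sqrt_of_sq_le
              norm_num
            have h3 : (√2)⁻¹ ≤ ((4 : ℝ) / 3)⁻¹ := inv_anti₀ (by norm_num) h2
            norm_num at h3 ⊢
            exact h3
  refine ⟨key, ?_⟩
  have h1 : ∀ p ∈ Nat.primesBelow (2 ^ j),
      (1 - (p : ℝ) ^ (1 / ((j : ℝ) + 1) - 1))⁻¹ ≤ Real.exp (8 * ((1 : ℝ) / p)) := by
    intro p hp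
    obtain ⟨h2, h3⟩ := key p hp
    set x := (p : ℝ) ^ (1 / ((j : ℝ) + 1) - 1) with hx
    have hx0 : 0 ≤ x := Real.rpow_nonneg (Nat.cast_nonneg _) _
    have h4 : (1 - x)⁻¹ = x / (1 - x) + 1 := by
      have : 1 - x ≠ 0 := by linarith
      field_simp
      ring
    have h5 : x / (1 - x) ≤ 8 * ((1 : ℝ) / p) := by
      rw [div_le_iff₀ (by linarith)]
      have h6 : (0 : ℝ) ≤ 1 / p := by positivity
      have h7 : x ≤ 2 * (1 / p) := by
        rw [mul_one_div]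
        exact h2
      nlinarith
    rw [h4]
    exact (Real.add_one_le_exp _).trans (Real.exp_le_exp.2 h5)
  have h2 : ∏ p ∈ Nat.primesBelow (2 ^ j), (1 - (p : ℝ) ^ (1 / ((j : ℝ) + 1) - 1))⁻¹ ≤
      Real.exp (∑ p ∈ Nat.primesBelow (2 ^ j), 8 * ((1 : ℝ) / p)) := by
    rw [Real.exp_sum]
    refine Finset.prod_le_prod (fun p hp => ?_) h1
    have := (key p hp).2
    exact inv_nonneg.2 (by linarith)
  refine h2.trans ?_
  rw [← Finset.mul_sum]
  have h3 := P6_sum hP1 (j - 1)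
  have h4 : j - 1 + 1 = j := by omega
  rw [h4] at h3
  have h5 := P6_harm j hj
  have h6 : 8 * ∑ p ∈ Nat.primesBelow (2 ^ j), (1 : ℝ) / p ≤ 32 + 32 * Real.log j := by linarith
  have hj1 : (0 : ℝ) < j := by exact_mod_cast hj
  calc Real.exp (8 * ∑ p ∈ Nat.primesBelow (2 ^ j), (1 : ℝ) / p)
      ≤ Real.exp (32 + 32 * Real.log j) := Real.exp_le_exp.2 h6
    _ = Real.exp 32 * (j : ℝ) ^ 32 := by
      rw [Real.exp_add]
      congr 1
      have h7 : (32 : ℝ) * Real.log j = ((32 : ℕ) : ℝ) * Real.log j := by norm_num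
      rw [h7, Real.exp_nat_mul, Real.exp_log hj1]

theorem P6_smooth (hP1 : P1_stmt) (j : ℕ) (hj : 1 ≤ j) (Q : Finset ℕ)
    (hQ : ∀ q ∈ Q, 1 ≤ q ∧ ∀ p : ℕ, p.Prime → p ∣ q → Nat.log 2 p < j) :
    ∑ q ∈ Q, (q : ℝ) ^ (1 / ((j : ℝ) + 1) - 1) ≤ Real.exp 32 * (j : ℝ) ^ 32 := by
  obtain ⟨-, h1⟩ := P6_prod hP1 j hj
  refine le_trans ?_ h1
  set a := 1 / ((j : ℝ) + 1) - 1 with ha
  have ha0 : a < 0 := by
    have hj0 : (1 : ℝ) < (j : ℝ) + 1 := by
      have : (1 : ℝ) ≤ j := by exact_mod_cast hj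
      linarith
    have : 1 / ((j : ℝ) + 1) < 1 := by
      rw [div_lt_one (by linarith)]
      exact hj0
    linarith
  have h2 : ∀ {p : ℕ}, p.Prime → ‖P6_f a p‖ < 1 := by
    intro p hp
    change ‖(p : ℝ) ^ a‖ < 1
    have hp1 : (1 : ℝ) < p := by exact_mod_cast hp.one_lt
    rw [Real.norm_of_nonneg (Real.rpow_nonneg (by linarith) _)]
    exact Real.rpow_lt_one_of_one_lt_of_neg hp1 ha0
  obtain ⟨-, h3⟩ := EulerProduct.summable_and_hasSum_smoothNumbers_prod_primesBelow_geometric h2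
    (2 ^ j)
  have h4 : ∀ q ∈ Q, q ∈ (2 ^ j).smoothNumbers := by
    intro q hq
    obtain ⟨h5, h6⟩ := hQ q hq
    rw [Nat.mem_smoothNumbers]
    refine ⟨by omega, fun p hp => ?_⟩
    have h7 := h6 p (Nat.prime_of_mem_primeFactorsList hp) (Nat.dvd_of_mem_primeFactorsList hp)
    exact (Nat.log_lt_iff_lt_pow (by norm_num)
      (Nat.prime_of_mem_primeFactorsList hp).ne_zero).1 h7
  let e : {q // q ∈ Q} ↪ (2 ^ j).smoothNumbers :=
    ⟨fun q => ⟨q.1, h4 q.1 q.2⟩, fun x y hxy => Subtype.ext (by simpa using hxy)⟩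
  have h5 : ∑ q ∈ Q, (q : ℝ) ^ a = ∑ m ∈ Q.attach.map e, P6_f a (m : ℕ) := by
    rw [Finset.sum_map, ← Finset.sum_attach]
    rfl
  rw [h5]
  exact sum_le_hasSum _ (fun m _ => Real.rpow_nonneg (Nat.cast_nonneg _) _) h3

theorem P6 (hP1 : P1_stmt) : P6_stmt := by
  intro B
  refine ⟨100 * (B + 32), by omega, fun K hK => ⟨Real.exp 32, Real.one_le_exp (by norm_num), ?_⟩⟩
  intro i Q hi hQ
  have hi0 : (0 : ℝ) < i := by exact_mod_cast hi
  by_cases hj : j0 K i = 0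
  · have h1 : Q = ∅ := by
      rw [Finset.eq_empty_iff_forall_notMem]
      intro q hq
      obtain ⟨h2, h3, h4⟩ := hQ q hq
      have h5 : (1 : ℝ) < q := by
        refine lt_of_le_of_lt ?_ h3
        exact Real.one_le_rpow (by norm_num) (by positivity)
      have h6 : q ≠ 1 := by
        rintro rfl
        norm_num at h5
      obtain ⟨p, hp, hpq⟩ := Nat.exists_prime_and_dvd h6
      have h7 := h4 p hp hpq
      omega
    rw [h1, Finset.sum_empty]
    positivity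
  · set j := j0 K i with hjdef
    have hj1 : 1 ≤ j := by omega
    have h1 := P6_smooth hP1 j hj1 Q (fun q hq => ⟨(hQ q hq).1, (hQ q hq).2.2⟩)
    set l := Nat.log 2 i with hl
    have hK0 : 0 < K := by omega
    have hjl : j * (K * (l + 1)) ≤ i := by
      rw [hjdef]
      exact Nat.div_mul_le_self i _
    have hji : (j : ℝ) ≤ i := by
      have h2 : 1 ≤ K * (l + 1) := Nat.mul_pos hK0 (by omega)
      have h3 : j ≤ j * (K * (l + 1)) := Nat.le_mul_of_pos_right j (by omega)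
      exact_mod_cast h3.trans hjl
    have hj1' : (1 : ℝ) ≤ j := by exact_mod_cast hj1
    -- the exponent
    have hexp : ((l : ℝ) + 1) * ((B : ℝ) + 32) ≤ (i : ℝ) / 50 * (1 / ((j : ℝ) + 1)) := by
      rw [mul_one_div, le_div_iff₀ (by positivity), le_div_iff₀ (by norm_num)]
      have h2 : (j : ℝ) * (K * ((l : ℝ) + 1)) ≤ i := by exact_mod_cast hjl
      have h3 : (100 : ℝ) * (B + 32) ≤ K := by exact_mod_cast hK
      have h4 : (0 : ℝ) ≤ (l : ℝ) + 1 := by positivity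
      have h5 : ((l : ℝ) + 1) * ((B : ℝ) + 32) * 100 ≤ ((l : ℝ) + 1) * K := by nlinarith
      have h6 : ((l : ℝ) + 1) * ((B : ℝ) + 32) * ((j : ℝ) + 1) * 50 ≤
          ((l : ℝ) + 1) * ((B : ℝ) + 32) * 100 * j := by
        have h7 : (0 : ℝ) ≤ ((l : ℝ) + 1) * ((B : ℝ) + 32) := by positivity
        nlinarith
      have h8 : ((l : ℝ) + 1) * ((B : ℝ) + 32) * 100 * j ≤ ((l : ℝ) + 1) * K * j :=
        mul_le_mul_of_nonneg_right h5 (by linarith)
      calc _ ≤ _ := h6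
        _ ≤ _ := h8
        _ = (j : ℝ) * (K * ((l : ℝ) + 1)) := by ring
        _ ≤ i := h2
    have hpow : (i : ℝ) ^ (B + 32) ≤ (2 : ℝ) ^ ((i : ℝ) / 50 * (1 / ((j : ℝ) + 1))) := by
      have h2 : (i : ℝ) ≤ 2 ^ (l + 1) := by
        have h3 : i < 2 ^ (Nat.log 2 i + 1) := Nat.lt_pow_succ_log_self (by norm_num) i
        exact_mod_cast h3.le
      calc (i : ℝ) ^ (B + 32) ≤ ((2 : ℝ) ^ (l + 1)) ^ (B + 32) :=
            pow_le_pow_left₀ hi0.le h2 _
        _ = (2 : ℝ) ^ (((l : ℝ) + 1) * ((B : ℝ) + 32)) := by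
            rw [← pow_mul, ← Real.rpow_natCast]
            push_cast
            rfl
        _ ≤ _ := Real.rpow_le_rpow_of_exponent_le (by norm_num) hexp
    have hterm : ∀ q ∈ Q, (1 : ℝ) / q ≤
        (q : ℝ) ^ (1 / ((j : ℝ) + 1) - 1) * ((i : ℝ) ^ (B + 32))⁻¹ := by
      intro q hq
      obtain ⟨h2, h3, -⟩ := hQ q hq
      have hq0 : (0 : ℝ) < q := by exact_mod_cast h2
      rw [Real.rpow_sub hq0, Real.rpow_one, div_mul_eq_mul_div]
      refine div_le_div_of_nonneg_right ?_ hq0.le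
      rw [← div_eq_mul_inv, one_le_div (by positivity)]
      refine hpow.trans ?_
      rw [Real.rpow_mul (by norm_num)]
      exact Real.rpow_le_rpow (by positivity) h3.le (by positivity)
    calc ∑ q ∈ Q, (1 : ℝ) / q
        ≤ ∑ q ∈ Q, (q : ℝ) ^ (1 / ((j : ℝ) + 1) - 1) * ((i : ℝ) ^ (B + 32))⁻¹ :=
          Finset.sum_le_sum hterm
      _ = (∑ q ∈ Q, (q : ℝ) ^ (1 / ((j : ℝ) + 1) - 1)) * ((i : ℝ) ^ (B + 32))⁻¹ := by
          rw [Finset.sum_mul]
      _ ≤ (Real.exp 32 * (j : ℝ) ^ 32) * ((i : ℝ) ^ (B + 32))⁻¹ :=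
          mul_le_mul_of_nonneg_right h1 (by positivity)
      _ ≤ (Real.exp 32 * (i : ℝ) ^ 32) * ((i : ℝ) ^ (B + 32))⁻¹ := by
          refine mul_le_mul_of_nonneg_right ?_ (by positivity)
          exact mul_le_mul_of_nonneg_left (pow_le_pow_left₀ (by linarith) hji 32)
            (Real.exp_pos _).le
      _ = Real.exp 32 / (i : ℝ) ^ B := by
          rw [pow_add]
          field_simp

end Pool.Agent.T6
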